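import Pool.Agent.H73.KG.Stmts

/-!
# Project KG, module TRP: the growth of the trace potential
-/

set_option autoImplicit false

open MeasureTheory Set Filter Topology
open scoped ContDiff

namespace Pool.Agent.H59.KG

open Pool.Agent.H84 Pool.Agent.H84.Sym Pool.Agent.H84.Sym.P2x Pool.Agent.H19.KL
open Pool.Agent.H73.KG

variable {E : Type} [NormedAddCommGroup E] [InnerProductSpace ℝ E]
    [FiniteDimensional ℝ E] [MeasurableSpace E] [BorelSpace E]

omit [FiniteDimensional ℝ E] [MeasurableSpace E] [BorelSpace E] in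
theorem trp_li (e : E) : GC (li e) := by
  refine ⟨by unfold li; fun_prop, ?_⟩
  have h : Gr (fun x : E => ‖e‖ * ‖x‖) := Gr.mul (Gr.of_bdd (A := |‖e‖|) fun _ => le_rfl) Gr.nrm
  refine Gr.of_le h fun x => ?_
  rw [abs_mul, abs_norm, abs_norm]
  exact abs_real_inner_le_norm e x

omit [FiniteDimensional ℝ E] [MeasurableSpace E] [BorelSpace E] in
/-- the time derivative of a regular function -/
theorem trp_dt {G : ℝ → E → ℝ} (hG : RG G) {s : ℝ} (hs : 0 < s) :
    GC (fun θ => deriv (fun r => G r θ) s) := by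
  have hopen : IsOpen (Ioi (0:ℝ) ×ˢ (univ : Set E)) := isOpen_Ioi.prod isOpen_univ
  have hmem : ∀ θ : E, (s, θ) ∈ Ioi (0:ℝ) ×ˢ (univ : Set E) := fun θ => ⟨hs, mem_univ _⟩
  have key : ∀ θ, deriv (fun r => G r θ) s = fderiv ℝ (Function.uncurry G) (s, θ) (1, 0) := by
    intro θ
    have hd : DifferentiableAt ℝ (Function.uncurry G) (s, θ) :=
      (hG.smooth.contDiffAt (hopen.mem_nhds (hmem θ))).differentiableAt (by norm_num)
    have h1 : HasDerivAt (fun r : ℝ => (r, θ)) ((1:ℝ), (0:E)) s :=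
      (hasDerivAt_id s).prodMk (hasDerivAt_const s θ)
    have h2 := hd.hasFDerivAt.comp_hasDerivAt s h1
    exact h2.deriv
  have hfun : (fun θ => deriv (fun r => G r θ) s) =
      fun θ => fderiv ℝ (Function.uncurry G) (s, θ) (1, 0) := funext key
  rw [hfun]
  constructor
  · have hc : ContinuousOn (fderiv ℝ (Function.uncurry G)) (Ioi (0:ℝ) ×ˢ univ) :=
      hG.smooth.continuousOn_fderiv_of_isOpen hopen (by norm_num)
    have hc2 : Continuous fun θ : E => fderiv ℝ (Function.uncurry G) (s, θ) := by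
      rw [continuous_iff_continuousAt]
      intro θ
      have h1 : ContinuousAt (fderiv ℝ (Function.uncurry G)) (s, θ) :=
        hc.continuousAt (hopen.mem_nhds (hmem θ))
      exact ContinuousAt.comp (f := fun θ : E => (s, θ)) h1 (by fun_prop)
    exact hc2.clm_apply continuous_const
  · obtain ⟨A, B, h⟩ := hG.growth s
    refine ⟨A * ‖((1:ℝ), (0:E))‖, B, fun θ => ?_⟩
    have h1 := h 1 (by norm_num) s ⟨hs, le_rfl⟩ θ
    have h2 : ‖fderiv ℝ (Function.uncurry G) (s, θ)‖ ≤ A * Real.exp (B * ‖θ‖) := by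
      rw [← norm_iteratedFDeriv_one]
      exact h1
    calc |fderiv ℝ (Function.uncurry G) (s, θ) (1, 0)|
        = ‖fderiv ℝ (Function.uncurry G) (s, θ) (1, 0)‖ := (Real.norm_eq_abs _).symm
      _ ≤ ‖fderiv ℝ (Function.uncurry G) (s, θ)‖ * ‖((1:ℝ), (0:E))‖ :=
          ContinuousLinearMap.le_opNorm _ _
      _ ≤ A * Real.exp (B * ‖θ‖) * ‖((1:ℝ), (0:E))‖ :=
          mul_le_mul_of_nonneg_right h2 (norm_nonneg _)
      _ = A * ‖((1:ℝ), (0:E))‖ * Real.exp (B * ‖θ‖) := by ring

/-- the generator preserves the class of continuous functions of exponential growth -/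
theorem trp_gen (h1 : RGCStmt E) (h2 : RGPStmt E) {U : E → ℝ} {t : ℝ} (hU : PP U t)
    {G : ℝ → E → ℝ} (hG : RG G) {s : ℝ} (hs : 0 < s) {ι : Type} [Fintype ι]
    (b : OrthonormalBasis ι ℝ E) : GC (gen b U G s) := by
  obtain ⟨hGs, hsm, hgr, hDD⟩ := h1.2.2.2.2.2.1 G hG s hs
  have hD : ∀ e : E, GC (fun θ => D e (G s) θ) := by
    intro e
    constructor
    · unfold D
      have hc : Continuous (fderiv ℝ (G s)) := hsm.continuous_fderiv (by norm_num)
      exact hc.clm_apply continuous_const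
    · refine Gr.of_le (Gr.mul hgr (Gr.of_bdd (A := |‖e‖|) (F := fun _ : E => ‖e‖) fun _ => le_rfl))
        fun θ => ?_
      rw [abs_mul, abs_norm, abs_norm, ← Real.norm_eq_abs]
      exact ContinuousLinearMap.le_opNorm _ _
  have hpm : ∀ i, GC (fun θ => pm U s θ (li (b i))) := fun i =>
    (h1.2.2.2.2.2.1 _ (h2 U t hU (li (b i)) (trp_li _)).1 s hs).1
  have e1 : GC (fun θ => ∑ i, pm U s θ (li (b i)) * D (b i) (G s) θ) :=
    GC.sum (s := Finset.univ) (F := fun i θ => pm U s θ (li (b i)) * D (b i) (G s) θ)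
      fun i => GC.mul (hpm i) (hD _)
  have e2 : GC (fun θ => ∑ i, D (b i) (D (b i) (G s)) θ) :=
    GC.sum (s := Finset.univ) (F := fun i θ => D (b i) (D (b i) (G s)) θ) fun i => hDD (b i)
  have e3 : GC (fun θ => (∑ i, D (b i) (D (b i) (G s)) θ) * (1 / 2)) := GC.mul e2 (GC.const _)
  have e4 := GC.add (GC.add (trp_dt hG hs) e1) e3
  have : gen b U G s = fun θ => deriv (fun r => G r θ) s +
      (∑ i, pm U s θ (li (b i)) * D (b i) (G s) θ) +
      (∑ i, D (b i) (D (b i) (G s)) θ) * (1 / 2) := by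
    funext θ
    unfold gen
    ring
  rw [this]
  exact e4

theorem trp_thm (hPWB : PWBStmt E) (hRGC : RGCStmt E) (hRGP : RGPStmt E) (hBAY : BAYStmt E)
    (hDYN : DYNStmt E) (hFPB : FPBStmt E) (hGIN : GINStmt E) : TRPStmt E := by
  intro U t hU ι _ _ b S Φ k hS hΦ hΦ0 hk p hp s hs
  set G : ℝ → E → ℝ := fun s θ => FP p (cm b (pw U s θ)) with hGdef
  have hG : RG G := (hFPB U t hU ι b p hp).1
  obtain ⟨hder, hcont, h0⟩ := hDYN U t hU G hG
  set c : ℝ := (Fintype.card ι : ℝ) * (1 / 3) ^ p with hc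
  set κ : ℝ := 9 / 2 * p * (p + 1) with hκ
  set h : ℝ → ℝ := fun s => EX U s (G s) + c with hh
  set g : ℝ → ℝ := fun s => h s * Real.exp (-(κ * Φ s)) with hg
  have hsub : Icc (0:ℝ) S ⊆ Ici 0 := fun x hx => hx.1
  have hhc : ContinuousOn h (Icc 0 S) := (hcont.mono hsub).add continuousOn_const
  have hgc : ContinuousOn g (Icc 0 S) := by
    refine hhc.mul ?_
    exact Real.continuous_exp.comp_continuousOn ((continuousOn_const.mul hΦ).neg)
  have hgd : ∀ r ∈ Ioo (0:ℝ) S, HasDerivAt g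
      (EX U r (gen b U G r) * Real.exp (-(κ * Φ r)) +
        h r * (Real.exp (-(κ * Φ r)) * (-(κ * k r)))) r := by
    intro r hr
    have d1 : HasDerivAt h (EX U r (gen b U G r)) r := (hder ι b r hr.1).add_const c
    have d2 : HasDerivAt (fun s => Real.exp (-(κ * Φ s)))
        (Real.exp (-(κ * Φ r)) * (-(κ * k r))) r :=
      (((hk r hr).1.const_mul κ).neg).exp
    exact d1.mul d2
  have hineq : ∀ r ∈ Ioo (0:ℝ) S, EX U r (gen b U G r) ≤ κ * k r * h r := by
    intro r hr
    obtain ⟨-, hadd, hmul, hcst, hmono, -, -⟩ := hBAY U t hU r hr.1.le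
    have hGr : GC (G r) := (hRGC.2.2.2.2.2.1 G hG r hr.1).1
    have hgen : GC (gen b U G r) := trp_gen hRGC hRGP hU hG hr.1 b
    have hle : ∀ θ, gen b U G r θ ≤ κ * k r * (G r θ + c) := fun θ =>
      hGIN U t hU r (k r) hr.1 (hk r hr).2.2 ι b p hp θ
    have hR : GC (fun θ => κ * k r * (G r θ + c)) :=
      GC.mul (GC.const _) (GC.add hGr (GC.const _))
    have e1 : EX U r (gen b U G r) ≤ EX U r (fun θ => κ * k r * (G r θ + c)) :=
      hmono _ _ hgen hR hle
    have e2 : EX U r (fun θ => κ * k r * (G r θ + c)) = κ * k r * EX U r (fun θ => G r θ + c) :=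
      hmul _ _
    have e3 : EX U r (fun θ => G r θ + c) = EX U r (G r) + c := by
      rw [hadd _ _ hGr (GC.const c), hcst]
    rw [e2, e3] at e1
    exact e1
  have hanti : AntitoneOn g (Icc 0 S) := by
    refine antitoneOn_of_deriv_nonpos (convex_Icc 0 S) hgc ?_ ?_
    · rw [interior_Icc]
      exact fun r hr => (hgd r hr).differentiableAt.differentiableWithinAt
    · rw [interior_Icc]
      intro r hr
      rw [(hgd r hr).deriv]
      have e := hineq r hr
      have hpos := Real.exp_pos (-(κ * Φ r))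
      have : EX U r (gen b U G r) * Real.exp (-(κ * Φ r)) +
          h r * (Real.exp (-(κ * Φ r)) * (-(κ * k r))) =
          (EX U r (gen b U G r) - κ * k r * h r) * Real.exp (-(κ * Φ r)) := by ring
      rw [this]
      exact mul_nonpos_of_nonpos_of_nonneg (by linarith) hpos.le
  have hfin := hanti (left_mem_Icc.2 hS.le) hs hs.1
  have hg0 : g 0 = FP p (cm b U) + c := by
    have e0 : G 0 0 = FP p (cm b U) := by
      rw [hGdef]
      simp only
      rw [(hPWB U t hU).2.2]
    simp only [hg, hh]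
    rw [hΦ0, h0, e0]
    simp
  rw [hg0] at hfin
  have hfin2 : h s * Real.exp (-(κ * Φ s)) ≤ FP p (cm b U) + c := hfin
  have hexp : Real.exp (-(κ * Φ s)) * Real.exp (κ * Φ s) = 1 := by
    rw [← Real.exp_add]; simp
  calc h s = h s * Real.exp (-(κ * Φ s)) * Real.exp (κ * Φ s) := by
        rw [mul_assoc, hexp, mul_one]
    _ ≤ (FP p (cm b U) + c) * Real.exp (κ * Φ s) :=
        mul_le_mul_of_nonneg_right hfin2 (Real.exp_pos _).le

end Pool.Agent.H59.KG
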